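import Pool.Agent.TH304.J491

/-!
# Limits of finite-volume loop O(1) measures (MP_f0ab88_pr)

Adapted from Pool/Agent/TH304/J498.lean and J491.lean.
-/

set_option autoImplicit false
set_option linter.unusedSectionVars false

open Pool.Agent.TH981.LO
open scoped BigOperators symmDiff MeasureTheory ENNReal Topology BoundedContinuousFunction
open MeasureTheory Filter

namespace Pool.Agent.Y944.LO

open Pool.Agent.TH304.J498 Pool.Agent.TH304.J491

variable {d : ℕ}

/-- the expectation in the box -/
theorem key' (x : ℝ) (hx : 0 < x) (P S : Finset (Ed d)) (hSP : S ⊆ P) (VG : Finset (Vt d))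
    (hVG : ∀ e ∈ S, e.1 ∈ VG ∧ e.1 + ev e.2 ∈ VG) (A : Vt d → ZMod 2)
    (hA : ∀ v ∈ VG, A v = 0) (ξ : Finset (Ed d)) (hξ : ξ ⊆ S)
    (g : Om d → ℝ) (hg : ∀ η η' : Om d, (∀ e, e ∉ S → η e = η' e) → g η = g η') :
    LL d x P A (fun η => (if restr S (toOm η) = ξ then 1 else 0) * g (toOm η)) =
      LL d x P A (fun η => ell x S VG (outPar S (toOm η)) ξ * g (toOm η)) := by
  classical
  unfold LL
  have hP : P = (P \ S) ∪ S := (Finset.sdiff_union_of_subset hSP).symm
  rw [hP, MG.L_union _ _ Finset.sdiff_disjoint, MG.L_union _ _ Finset.sdiff_disjoint]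
  refine Finset.sum_congr rfl fun ρ hρ => ?_
  rw [Finset.mem_powerset] at hρ
  congr 1
  have hρS : Disjoint ρ S := Finset.disjoint_of_subset_left hρ Finset.sdiff_disjoint
  have hgρ : ∀ ξ' : Finset (Ed d), ξ' ⊆ S → g (toOm (ρ ∪ ξ')) = g (toOm ρ) := by
    intro ξ' h'
    refine hg _ _ fun e he => ?_
    have : e ∉ ξ' := fun h => he (h' h)
    simp [toOm, this]
  have hr : ∀ ξ' : Finset (Ed d), ξ' ⊆ S → restr S (toOm (ρ ∪ ξ')) = ξ' := by
    intro ξ' h'
    rw [restr_toOm, Finset.inter_union_distrib_left, Finset.disjoint_iff_inter_eq_empty.1 hρS.symm,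
      Finset.empty_union, Finset.inter_eq_right.2 h']
  have ho : ∀ ξ' : Finset (Ed d), ξ' ⊆ S → outPar S (toOm (ρ ∪ ξ')) = (lat d).bd ρ := by
    intro ξ' h'
    rw [outPar_toOm, Finset.union_sdiff_distrib, Finset.sdiff_eq_empty_iff_subset.2 h',
      Finset.union_empty, Finset.sdiff_eq_self_of_disjoint hρS]
  set b := A + (lat d).bd ρ with hb
  have hbV : ∀ v ∈ VG, (lat d).bd ρ v = b v := by
    intro v hv
    rw [hb, Pi.add_apply, hA v hv, zero_add]
  have hellb : ∀ ξ', ell x S VG ((lat d).bd ρ) ξ' = ell x S VG b ξ' := by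
    intro ξ'
    have h2 : ∀ ζ, loopW x VG ((lat d).bd ρ) ζ = loopW x VG b ζ := by
      intro ζ
      unfold loopW
      have : (∀ v ∈ VG, (lat d).bd ζ v = (lat d).bd ρ v) ↔ (∀ v ∈ VG, (lat d).bd ζ v = b v) := by
        constructor
        · intro h3 v hv
          rw [← hbV v hv]; exact h3 v hv
        · intro h3 v hv
          rw [hbV v hv]; exact h3 v hv
      by_cases h3 : (∀ v ∈ VG, (lat d).bd ζ v = (lat d).bd ρ v)
      · rw [if_pos h3, if_pos (this.1 h3)]
      · rw [if_neg h3, if_neg (fun h4 => h3 (this.2 h4))]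
    unfold ell
    simp only [h2]
  have e1 : (lat d).L (fun _ => x) S b (fun η => (if restr S (toOm (ρ ∪ η)) = ξ then 1 else 0) *
      g (toOm (ρ ∪ η))) = (if (lat d).bd ξ = b then x ^ ξ.card else 0) * g (toOm ρ) := by
    rw [MG.L_eq_ite_338]
    rw [Finset.sum_eq_single ξ]
    · rw [hgρ ξ hξ, hr ξ hξ, if_pos rfl]
      split_ifs <;> simp
    · intro ξ' h' hne
      rw [Finset.mem_powerset] at h'
      rw [hr ξ' h', if_neg hne]
      simp
    · intro h
      exact absurd (Finset.mem_powerset.2 hξ) h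
  have e2 : (lat d).L (fun _ => x) S b (fun η => ell x S VG (outPar S (toOm (ρ ∪ η))) ξ *
      g (toOm (ρ ∪ η))) = (∑ ξ' ∈ S.powerset, if (lat d).bd ξ' = b then x ^ ξ'.card else 0) *
        (ell x S VG b ξ * g (toOm ρ)) := by
    rw [MG.L_eq_ite_338, Finset.sum_mul]
    refine Finset.sum_congr rfl fun ξ' h' => ?_
    rw [Finset.mem_powerset] at h'
    rw [hgρ ξ' h', ho ξ' h', hellb]
    split_ifs <;> simp
  rw [e1, e2]
  by_cases hex : ∃ ξ0, ξ0 ⊆ S ∧ (lat d).bd ξ0 = b
  · obtain ⟨ξ0, h0, hb0⟩ := hex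
    have hout : ∀ ξ' : Finset (Ed d), ξ' ⊆ S → ∀ v, v ∉ VG → (lat d).bd ξ' v = 0 := by
      intro ξ' h' v hv
      refine MG.bd_eq_zero_of_not_touch _ fun e he => ⟨?_, ?_⟩
      · rintro rfl
        exact hv (hVG e (h' he)).1
      · rintro rfl
        exact hv (hVG e (h' he)).2
    have hiff : ∀ ξ' : Finset (Ed d), ξ' ⊆ S →
        ((∀ v ∈ VG, (lat d).bd ξ' v = b v) ↔ (lat d).bd ξ' = b) := by
      intro ξ' h'
      constructor
      · intro h
        funext v
        by_cases hv : v ∈ VG
        · exact h v hv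
        · rw [← hb0, hout ξ' h' v hv, hout ξ0 h0 v hv]
      · intro h v _
        rw [h]
    have hl : ∀ ξ' : Finset (Ed d), ξ' ⊆ S →
        loopW x VG b ξ' = if (lat d).bd ξ' = b then x ^ ξ'.card else 0 := by
      intro ξ' h'
      unfold loopW
      by_cases h : (lat d).bd ξ' = b
      · rw [if_pos h, if_pos ((hiff ξ' h').2 h)]
      · rw [if_neg h, if_neg (fun h2 => h ((hiff ξ' h').1 h2))]
    have hsum : ∑ ξ' ∈ S.powerset, loopW x VG b ξ' =
        ∑ ξ' ∈ S.powerset, (if (lat d).bd ξ' = b then x ^ ξ'.card else 0) :=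
      Finset.sum_congr rfl fun ξ' h' => hl ξ' (Finset.mem_powerset.1 h')
    have hpos : 0 < ∑ ξ' ∈ S.powerset, (if (lat d).bd ξ' = b then x ^ ξ'.card else 0) := by
      refine Finset.sum_pos' (fun ξ' _ => ?_) ⟨ξ0, Finset.mem_powerset.2 h0, ?_⟩
      · split_ifs
        · positivity
        · exact le_rfl
      · rw [if_pos hb0]
        positivity
    unfold ell
    rw [hsum, hl ξ hξ]
    field_simp
  · have h1 : ¬ (lat d).bd ξ = b := fun h => hex ⟨ξ, hξ, h⟩
    rw [if_neg h1, Finset.sum_eq_zero]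
    · simp
    · intro ξ' h'
      rw [if_neg]
      intro h
      exact hex ⟨ξ', Finset.mem_powerset.1 h', h⟩

/-- weights -/
noncomputable def wt' (x : ℝ) (P : Finset (Ed d)) (A : Vt d → ZMod 2) (η : Finset (Ed d)) : ℝ :=
  x ^ η.card / ZZ d x P A

open Classical in
/-- even configurations -/
noncomputable def Ev' (P : Finset (Ed d)) (A : Vt d → ZMod 2) : Finset (Finset (Ed d)) :=
  P.powerset.filter (fun η => (lat d).bd η = A)

/-- finite-volume measure -/
noncomputable def mu' (x : ℝ) (P : Finset (Ed d)) (A : Vt d → ZMod 2) : Measure (Om d) :=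
  ∑ η ∈ Ev' P A, ENNReal.ofReal (wt' x P A η) • Measure.dirac (toOm η)

theorem LL_eq' (x : ℝ) (P : Finset (Ed d)) (A : Vt d → ZMod 2) (f : Finset (Ed d) → ℝ) :
    LL d x P A f = ∑ η ∈ Ev' P A, x ^ η.card * f η := by
  unfold LL MG.L Ev'
  refine Finset.sum_congr ?_ fun η _ => ?_
  · congr
  · rw [Finset.prod_const]

theorem Z_pos' (x : ℝ) (hx : 0 < x) (P : Finset (Ed d)) (A : Vt d → ZMod 2)
    (hF : ∃ η, η ⊆ P ∧ (lat d).bd η = A) : 0 < ZZ d x P A := by
  classical
  have h := LL_eq' (d := d) x P A (fun _ => 1)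
  have h1 : ZZ d x P A = LL d x P A (fun _ => 1) := rfl
  rw [h1, h]
  refine Finset.sum_pos (fun η _ => by positivity) ?_
  obtain ⟨η, h2, h3⟩ := hF
  refine ⟨η, ?_⟩
  unfold Ev'
  exact Finset.mem_filter.2 ⟨Finset.mem_powerset.2 h2, h3⟩

theorem wt_nonneg' (x : ℝ) (hx : 0 < x) (P : Finset (Ed d)) (A : Vt d → ZMod 2)
    (hF : ∃ η, η ⊆ P ∧ (lat d).bd η = A) (η : Finset (Ed d)) : 0 ≤ wt' x P A η :=
  div_nonneg (pow_nonneg hx.le _) (Z_pos' x hx P A hF).le

theorem sum_wt' (x : ℝ) (hx : 0 < x) (P : Finset (Ed d)) (A : Vt d → ZMod 2)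
    (hF : ∃ η, η ⊆ P ∧ (lat d).bd η = A) : ∑ η ∈ Ev' P A, wt' x P A η = 1 := by
  have h := LL_eq' (d := d) x P A (fun _ => 1)
  simp only [mul_one] at h
  unfold wt'
  rw [← Finset.sum_div, ← h]
  exact div_self (Z_pos' x hx P A hF).ne'

theorem isProb' (x : ℝ) (hx : 0 < x) (P : Finset (Ed d)) (A : Vt d → ZMod 2)
    (hF : ∃ η, η ⊆ P ∧ (lat d).bd η = A) : IsProbabilityMeasure (mu' x P A) := by
  refine ⟨?_⟩
  unfold mu'
  rw [Measure.finsetSum_apply]
  simp only [Measure.smul_apply, smul_eq_mul, measure_univ, mul_one]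
  rw [← ENNReal.ofReal_sum_of_nonneg (fun η _ => wt_nonneg' x hx P A hF η), sum_wt' x hx P A hF,
    ENNReal.ofReal_one]

theorem integral_mu' (x : ℝ) (hx : 0 < x) (P : Finset (Ed d)) (A : Vt d → ZMod 2)
    (hF : ∃ η, η ⊆ P ∧ (lat d).bd η = A) (f : Om d → ℝ) (hf : Continuous f) :
    ∫ η, f η ∂(mu' x P A) = LL d x P A (fun η => f (toOm η)) / ZZ d x P A := by
  have : BorelSpace (Om d) := borel_Om
  have hm : StronglyMeasurable f := hf.measurable.stronglyMeasurable
  unfold mu'
  rw [integral_finsetSum_measure]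
  · rw [LL_eq', Finset.sum_div]
    refine Finset.sum_congr rfl fun η _ => ?_
    rw [integral_smul_measure, integral_dirac' _ _ hm,
      ENNReal.toReal_ofReal (wt_nonneg' x hx P A hF η)]
    unfold wt'
    rw [smul_eq_mul]
    ring
  · intro η _
    refine Integrable.smul_measure ?_ ENNReal.ofReal_ne_top
    have : CompactSpace (Om d) := inferInstance
    obtain ⟨C, hC⟩ := isCompact_univ.exists_bound_of_continuousOn hf.continuousOn
    exact Integrable.of_bound hm.aestronglyMeasurable C (ae_of_all _ fun x => hC x (Set.mem_univ x))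

/-- the finite-volume measure as a probability measure -/
noncomputable def pm (x : ℝ) (hx : 0 < x) (P : Finset (Ed d)) (A : Vt d → ZMod 2)
    (hF : ∃ η, η ⊆ P ∧ (lat d).bd η = A) : ProbabilityMeasure (Om d) :=
  ⟨mu' x P A, isProb' x hx P A hF⟩

/-- Limits of finite-volume measures whose sources move away are Gibbs measures. -/
theorem limit_gibbs (x : ℝ) (hx0 : 0 < x) (l : Filter ℕ) [l.NeBot] (P : ℕ → Finset (Ed d))
    (A : ℕ → Vt d → ZMod 2) (hfe : ∀ n, ∃ η, η ⊆ P n ∧ (lat d).bd η = A n)
    (hP : ∀ S : Finset (Ed d), ∀ᶠ n in l, S ⊆ P n)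
    (hA : ∀ V : Finset (Vt d), ∀ᶠ n in l, ∀ v ∈ V, A n v = 0) (μ : ProbabilityMeasure (Om d))
    (hμ : Tendsto (fun n => pm x hx0 (P n) (A n) (hfe n)) l (𝓝 μ)) :
    IsGibbs d x (μ : Measure (Om d)) := by
  classical
  have : BorelSpace (Om d) := borel_Om
  rw [ProbabilityMeasure.tendsto_iff_forall_integral_tendsto] at hμ
  intro S VG hVG ξ hξ F hF
  rw [Finset.mem_powerset] at hξ
  -- the two factors
  have hR : Continuous (fun η : Om d => if restr S η = ξ then (1 : ℝ) else 0) := by
    refine continuous_of_local S _ fun η η' h => ?_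
    have : restr S η = restr S η' := by
      unfold restr
      exact Finset.filter_congr fun e he => by rw [h e he]
    rw [this]
  have hL : Continuous (fun η : Om d => ell x S VG (outPar S η) ξ) := by
    refine continuous_of_local (TE VG) _ fun η η' h => ?_
    have : ∀ v ∈ VG, outPar S η v = outPar S η' v := by
      intro v hv
      unfold outPar
      congr 2
      refine Finset.filter_congr fun e he => ?_
      have : e ∈ TE VG := by
        rw [mem_TE] at he ⊢
        simp only [Finset.mem_singleton] at he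
        rcases he with h1 | h1
        · left; rw [h1]; exact hv
        · right; rw [h1]; exact hv
      rw [h e this]
    have h2 : ∀ ξ', loopW x VG (outPar S η) ξ' = loopW x VG (outPar S η') ξ' := by
      intro ξ'
      unfold loopW
      have : (∀ v ∈ VG, (lat d).bd ξ' v = outPar S η v) ↔
          (∀ v ∈ VG, (lat d).bd ξ' v = outPar S η' v) := by
        constructor
        · intro h3 v hv
          rw [← this v hv]; exact h3 v hv
        · intro h3 v hv
          rw [this v hv]; exact h3 v hv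
      by_cases h3 : (∀ v ∈ VG, (lat d).bd ξ' v = outPar S η v)
      · rw [if_pos h3, if_pos (this.1 h3)]
      · rw [if_neg h3, if_neg (fun h4 => h3 (this.2 h4))]
    unfold ell
    simp only [h2]
  have hLnn : ∀ η : Om d, 0 ≤ ell x S VG (outPar S η) ξ := by
    intro η
    unfold ell
    have : ∀ ξ', 0 ≤ loopW x VG (outPar S η) ξ' := by
      intro ξ'
      unfold loopW
      split_ifs
      · positivity
      · exact le_rfl
    exact div_nonneg (this ξ) (Finset.sum_nonneg fun ξ' _ => this ξ')
  -- projection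
  set pr : Om d → ({e : Ed d // e ∉ S} → Bool) := fun η e => η e.1 with hpr
  have hprc : Continuous pr := continuous_pi fun e => continuous_apply e.1
  have hprm : Measurable pr := hprc.measurable
  have hint : ∀ f : Om d → ℝ, Continuous f → Integrable f (μ : Measure (Om d)) := by
    intro f hf
    obtain ⟨C, hC⟩ := isCompact_univ.exists_bound_of_continuousOn hf.continuousOn
    exact Integrable.of_bound hf.measurable.aestronglyMeasurable C
      (ae_of_all _ fun x => hC x (Set.mem_univ x))
  have hmain : ∀ g : Om d → ℝ, Continuous g →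
      (∀ η η' : Om d, (∀ e, e ∉ S → η e = η' e) → g η = g η') →
      ∫ η, (if restr S η = ξ then 1 else 0) * g η ∂(μ : Measure (Om d)) =
        ∫ η, ell x S VG (outPar S η) ξ * g η ∂(μ : Measure (Om d)) := by
    intro g hg hgl
    have hc1 := hR.mul hg
    have hc2 := hL.mul hg
    have t1 := hμ (BoundedContinuousFunction.mkOfCompact ⟨_, hc1⟩)
    have t2 := hμ (BoundedContinuousFunction.mkOfCompact ⟨_, hc2⟩)
    simp only [BoundedContinuousFunction.mkOfCompact_apply, ContinuousMap.coe_mk] at t1 t2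
    refine tendsto_nhds_unique t1 (t2.congr' ?_)
    filter_upwards [hP S, hA VG] with n hn hn'
    show ∫ η, _ ∂(mu' x (P n) (A n)) = ∫ η, _ ∂(mu' x (P n) (A n))
    rw [integral_mu' x hx0 _ _ (hfe n) _ hc1, integral_mu' x hx0 _ _ (hfe n) _ hc2]
    congr 1
    exact (key' x hx0 (P n) S hn VG hVG (A n) hn' ξ hξ g hgl).symm
  -- two finite measures
  set ν1 : Measure (Om d) := (μ : Measure (Om d)).restrict {η | restr S η = ξ} with hν1
  set ν2 : Measure (Om d) := (μ : Measure (Om d)).withDensity
    (fun η => ENNReal.ofReal (ell x S VG (outPar S η) ξ)) with hν2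
  have hset : MeasurableSet {η : Om d | restr S η = ξ} := by
    have : {η : Om d | restr S η = ξ} =
        (fun η : Om d => if restr S η = ξ then (1 : ℝ) else 0) ⁻¹' {1} := by
      ext η
      simp
    rw [this]
    exact hR.measurable (measurableSet_singleton 1)
  have : IsFiniteMeasure ν2 := by
    refine isFiniteMeasure_withDensity_ofReal ?_
    exact (hint _ hL).2
  have heq : ν1.map pr = ν2.map pr := by
    have : IsFiniteMeasure (ν1.map pr) := inferInstance
    have : IsFiniteMeasure (ν2.map pr) := inferInstance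
    refine ext_of_forall_integral_eq_of_IsFiniteMeasure fun f => ?_
    rw [integral_map hprm.aemeasurable f.continuous.measurable.aestronglyMeasurable,
      integral_map hprm.aemeasurable f.continuous.measurable.aestronglyMeasurable]
    have h1 : ∫ η, f (pr η) ∂ν1 =
        ∫ η, (if restr S η = ξ then 1 else 0) * f (pr η) ∂(μ : Measure (Om d)) := by
      rw [hν1, ← integral_indicator hset]
      refine integral_congr_ae (ae_of_all _ fun η => ?_)
      by_cases h : restr S η = ξ
      · simp [Set.indicator, h]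
      · simp [Set.indicator, h]
    have h2 : ∫ η, f (pr η) ∂ν2 =
        ∫ η, ell x S VG (outPar S η) ξ * f (pr η) ∂(μ : Measure (Om d)) := by
      rw [hν2]
      rw [integral_withDensity_eq_integral_toReal_smul₀]
      · refine integral_congr_ae (ae_of_all _ fun η => ?_)
        simp only [ENNReal.toReal_ofReal (hLnn η), smul_eq_mul]
      · exact (ENNReal.measurable_ofReal.comp hL.measurable).aemeasurable
      · exact ae_of_all _ fun η => ENNReal.ofReal_lt_top
    rw [h1, h2]
    refine hmain _ (f.continuous.comp hprc) fun η η' h => ?_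
    have : pr η = pr η' := by
      funext e
      exact h e.1 e.2
    simp only [this]
  -- conclusion
  obtain ⟨F', hF', rfl⟩ := hF
  have e1 : ν1.map pr F' = (μ : Measure (Om d)) ({η | restr S η = ξ} ∩ pr ⁻¹' F') := by
    rw [Measure.map_apply hprm hF', hν1, Measure.restrict_apply (hprm hF'), Set.inter_comm]
  have e2 : ν2.map pr F' = ∫⁻ η in pr ⁻¹' F', ENNReal.ofReal (ell x S VG (outPar S η) ξ)
      ∂(μ : Measure (Om d)) := by
    rw [Measure.map_apply hprm hF', hν2, withDensity_apply _ (hprm hF')]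
  show (μ : Measure (Om d)) ({η | restr S η = ξ} ∩ pr ⁻¹' F') = ∫⁻ η in pr ⁻¹' F',
    ENNReal.ofReal (ell x S VG (outPar S η) ξ) ∂(μ : Measure (Om d))
  rw [← e1, ← e2, heq]

/-- transfer from finite volume, for a measure with the Gibbs property in the box `R` -/
theorem trans' (x : ℝ) (hx0 : 0 < x) (μ : Measure (Om d)) [IsFiniteMeasure μ] (R : ℕ)
    (hG : ∀ ξ ∈ (EB d R).powerset, μ {η | restr (EB d R) η = ξ} =
      ∫⁻ η, ENNReal.ofReal (ell x (EB d R) (box d R) (outPar (EB d R) η) ξ) ∂μ)
    (g : Finset (Ed d) → ℝ) (a : ℝ)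
    (hyp : ∀ U : Finset (Vt d), (∀ u ∈ U, nm u = R) → ZZ d x (EB d R) (ind U) ≠ 0 →
        EE d x (EB d R) (ind U) g ≤ a) :
    ∫ η, g (restr (EB d R) η) ∂μ ≤ a * μ.real Set.univ := by
  classical
  have : BorelSpace (Om d) := borel_Om
  set S := EB d R with hS
  have hVG : ∀ e ∈ S, e.1 ∈ box d R ∧ e.1 + ev e.2 ∈ box d R := by
    intro e he
    rw [hS, mem_EB] at he
    exact ⟨mem_box.2 he.1, mem_box.2 he.2⟩
  have hint : ∀ f : Om d → ℝ, Continuous f → Integrable f μ := by
    intro f hf
    obtain ⟨C, hC⟩ := isCompact_univ.exists_bound_of_continuousOn hf.continuousOn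
    exact Integrable.of_bound hf.measurable.aestronglyMeasurable C
      (ae_of_all _ fun x => hC x (Set.mem_univ x))
  have hreal : ∀ ξ ∈ S.powerset, μ.real {η | restr S η = ξ} =
      ∫ η, ell x S (box d R) (outPar S η) ξ ∂μ := by
    intro ξ hξ
    have h1 := hG ξ hξ
    rw [Measure.real, h1, integral_eq_lintegral_of_nonneg_ae
      (ae_of_all _ fun η => ell_nonneg x hx0 _ _ _ _)
      (cont_ell x S (box d R) ξ).measurable.aestronglyMeasurable]
  have hset : ∀ ξ, MeasurableSet {η : Om d | restr S η = ξ} := by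
    intro ξ
    have hR : Continuous (fun η : Om d => if restr S η = ξ then (1 : ℝ) else 0) := by
      refine continuous_of_local S _ fun η η' h => ?_
      have : restr S η = restr S η' := by
        unfold restr
        exact Finset.filter_congr fun e he => by rw [h e he]
      rw [this]
    have : {η : Om d | restr S η = ξ} =
        (fun η : Om d => if restr S η = ξ then (1 : ℝ) else 0) ⁻¹' {1} := by
      ext η
      simp
    rw [this]
    exact hR.measurable (measurableSet_singleton 1)
  have hdec : ∀ f : Finset (Ed d) → ℝ, ∫ η, f (restr S η) ∂μ =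
      ∑ ξ ∈ S.powerset, f ξ * μ.real {η | restr S η = ξ} := by
    intro f
    have h1 : (fun η : Om d => f (restr S η)) =
        fun η => ∑ ξ ∈ S.powerset, Set.indicator {η | restr S η = ξ} (fun _ => f ξ) η := by
      funext η
      rw [Finset.sum_eq_single (restr S η)]
      · simp [Set.indicator]
      · intro ξ _ hne
        simp [Set.indicator, hne.symm]
      · intro h
        exact absurd (Finset.mem_powerset.2 (Finset.filter_subset _ _)) h
    rw [h1, integral_finsetSum]
    · refine Finset.sum_congr rfl fun ξ _ => ?_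
      rw [integral_indicator_const _ (hset ξ), smul_eq_mul, mul_comm]
    · intro ξ _
      exact (integrable_const _).indicator (hset ξ)
  have huniv : μ.real Set.univ = ∑ ξ ∈ S.powerset, μ.real {η | restr S η = ξ} := by
    have := hdec (fun _ => 1)
    simp only [one_mul] at this
    rw [← this]
    simp
  have hmain : ∫ η, g (restr S η) ∂μ - a * μ.real Set.univ =
      ∫ η, ∑ ξ ∈ S.powerset, (g ξ - a) * ell x S (box d R) (outPar S η) ξ ∂μ := by
    rw [hdec g, huniv, integral_finsetSum]
    · rw [Finset.mul_sum, ← Finset.sum_sub_distrib]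
      refine Finset.sum_congr rfl fun ξ hξ => ?_
      rw [integral_const_mul, ← hreal ξ hξ]
      ring
    · intro ξ _
      exact (hint _ (cont_ell x S (box d R) ξ)).const_mul _
  have hneg : ∫ η, ∑ ξ ∈ S.powerset, (g ξ - a) * ell x S (box d R) (outPar S η) ξ ∂μ ≤ 0 := by
    refine integral_nonpos fun η => ?_
    show ∑ ξ ∈ S.powerset, (g ξ - a) * ell x S (box d R) (outPar S η) ξ ≤ 0
    have hsumW : ∑ ξ' ∈ S.powerset, loopW x (box d R) (outPar S η) ξ' =
        ZZ d x S (ind (US R η)) := by
      have h1 : ZZ d x S (ind (US R η)) = LL d x (EB d R) (ind (US R η)) (fun _ => 1) := rfl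
      rw [h1, LL_ite]
      refine Finset.sum_congr rfl fun ξ hξ => ?_
      rw [loopW_eq x R η ξ (Finset.mem_powerset.1 hξ), mul_one]
    have h2 : ∑ ξ ∈ S.powerset, (g ξ - a) * ell x S (box d R) (outPar S η) ξ =
        (LL d x (EB d R) (ind (US R η)) g - a * ZZ d x S (ind (US R η))) /
          ZZ d x S (ind (US R η)) := by
      have h1 : ZZ d x S (ind (US R η)) = LL d x (EB d R) (ind (US R η)) (fun _ => 1) := rfl
      unfold ell
      rw [hsumW]
      simp only [← mul_div_assoc]
      rw [← Finset.sum_div]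
      congr 1
      rw [h1, LL_ite, LL_ite, Finset.mul_sum, ← Finset.sum_sub_distrib]
      refine Finset.sum_congr rfl fun ξ hξ => ?_
      rw [loopW_eq x R η ξ (Finset.mem_powerset.1 hξ)]
      ring
    rw [h2]
    by_cases hz : ZZ d x S (ind (US R η)) = 0
    · rw [hz, div_zero]
    · have hpos : 0 < ZZ d x S (ind (US R η)) :=
        lt_of_le_of_ne (MG.Z_nonneg _ _ fun _ _ => hx0.le) (Ne.symm hz)
      have h3 := hyp (US R η) (US_sphere R η) hz
      unfold EE MG.ex at h3
      rw [div_le_iff₀ hpos] at h3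
      refine div_nonpos_of_nonpos_of_nonneg ?_ hpos.le
      have : LL d x (EB d R) (ind (US R η)) g ≤ a * ZZ d x S (ind (US R η)) := h3
      linarith
  linarith


end Pool.Agent.Y944.LO
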