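import Pool.Agent.Y944.LO.Lim
import Pool.Agent.TH159.J492

/-!
# Uniform convergence of the finite-volume loop O(1) measures (MP_f0ab88_pr)
-/

set_option autoImplicit false
set_option linter.unusedSectionVars false

open Pool.Agent.TH981.LO
open scoped BigOperators symmDiff MeasureTheory ENNReal Topology BoundedContinuousFunction
open MeasureTheory Filter

namespace Pool.Agent.Y944.LO

open Pool.Agent.TH304.J498 Pool.Agent.TH304.J491

variable {d : ℕ}

theorem cont_ind (S ξ : Finset (Ed d)) :
    Continuous (fun η : Om d => if restr S η = ξ then (1 : ℝ) else 0) := by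
  refine continuous_of_local S _ fun η η' h => ?_
  have : restr S η = restr S η' := by
    unfold restr
    exact Finset.filter_congr fun e he => by rw [h e he]
  rw [this]

theorem meas_restr (S ξ : Finset (Ed d)) : MeasurableSet {η : Om d | restr S η = ξ} := by
  have : BorelSpace (Om d) := borel_Om
  have : {η : Om d | restr S η = ξ} =
      (fun η : Om d => if restr S η = ξ then (1 : ℝ) else 0) ⁻¹' {1} := by
    ext η
    simp
  rw [this]
  exact (cont_ind S ξ).measurable (measurableSet_singleton 1)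

theorem integral_ind (μ : Measure (Om d)) [IsFiniteMeasure μ] (S ξ : Finset (Ed d)) :
    ∫ η, (if restr S η = ξ then (1 : ℝ) else 0) ∂μ = μ.real {η | restr S η = ξ} := by
  have h : (fun η : Om d => if restr S η = ξ then (1 : ℝ) else 0) =
      Set.indicator {η | restr S η = ξ} (fun _ => (1 : ℝ)) := by
    funext η
    by_cases h : restr S η = ξ
    · simp [Set.indicator, h]
    · simp [Set.indicator, h]
  rw [h, integral_indicator_const _ (meas_restr S ξ), smul_eq_mul, mul_one]

/-- **Uniform convergence.** If `μ` is the only Gibbs measure then the finite-volume measures with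
sources outside a large box are close to `μ`. -/
theorem unif (x : ℝ) (hx0 : 0 < x) (μ : Measure (Om d)) [IsProbabilityMeasure μ]
    (huniq : ∀ ν : Measure (Om d), IsProbabilityMeasure ν → IsGibbs d x ν → ν = μ)
    (S ξ : Finset (Ed d)) (ε : ℝ) (hε : 0 < ε) :
    ∃ R₀ : ℕ, ∀ (P : Finset (Ed d)) (A : Finset (Vt d)), EB d R₀ ⊆ P → (∀ v ∈ A, R₀ < nm v) →
      (∃ η, η ⊆ P ∧ (lat d).bd η = ind A) →
      |EE d x P (ind A) (fun η => if S ∩ η = ξ then 1 else 0) - μ.real {η | restr S η = ξ}| ≤ ε := by
  classical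
  have : BorelSpace (Om d) := borel_Om
  by_contra hcon
  push Not at hcon
  choose P A hP hA hfe hlt using hcon
  let μs : ℕ → ProbabilityMeasure (Om d) := fun n => pm x hx0 (P n) (ind (A n)) (hfe n)
  obtain ⟨ν, hν⟩ : ∃ ν : ProbabilityMeasure (Om d),
      Tendsto μs (hyperfilter ℕ : Filter ℕ) (𝓝 ν) := by
    refine ⟨((hyperfilter ℕ).map μs).lim, ?_⟩
    exact ((hyperfilter ℕ).map μs).le_nhds_lim
  have hge : ∀ N : ℕ, ∀ᶠ n in (hyperfilter ℕ : Filter ℕ), N ≤ n := by
    intro N
    have : ∀ᶠ n in cofinite, N ≤ n := by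
      rw [Nat.cofinite_eq_atTop]
      exact eventually_ge_atTop N
    exact hyperfilter_le_cofinite this
  have hG : IsGibbs d x (ν : Measure (Om d)) := by
    refine limit_gibbs x hx0 (hyperfilter ℕ : Filter ℕ) P (fun n => ind (A n)) hfe ?_ ?_ ν hν
    · intro S
      obtain ⟨N, hN⟩ : ∃ N : ℕ, S ⊆ EB d N := by
        refine ⟨S.sup (fun e => nm e.1 + nm (e.1 + ev e.2)), fun e he => ?_⟩
        have := Finset.le_sup (f := fun e : Ed d => nm e.1 + nm (e.1 + ev e.2)) he
        rw [mem_EB]
        have h2 : nm e.1 + nm (e.1 + ev e.2) ≤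
          S.sup (fun e => nm e.1 + nm (e.1 + ev e.2)) := this
        constructor <;> omega
      filter_upwards [hge N] with n hn
      exact hN.trans ((EB_mono hn).trans (hP n))
    · intro V
      filter_upwards [hge (V.sup nm)] with n hn v hv
      have h1 : nm v ≤ V.sup nm := Finset.le_sup (f := nm) hv
      unfold ind
      rw [if_neg]
      intro hvA
      have := hA n v hvA
      omega
  have heq : (ν : Measure (Om d)) = μ := huniq _ inferInstance hG
  rw [ProbabilityMeasure.tendsto_iff_forall_integral_tendsto] at hν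
  have t1 := hν (BoundedContinuousFunction.mkOfCompact ⟨_, cont_ind S ξ⟩)
  simp only [BoundedContinuousFunction.mkOfCompact_apply, ContinuousMap.coe_mk] at t1
  rw [heq, integral_ind μ S ξ] at t1
  have t2 : ∀ᶠ n in (hyperfilter ℕ : Filter ℕ),
      |EE d x (P n) (ind (A n)) (fun η => if S ∩ η = ξ then 1 else 0) -
        μ.real {η | restr S η = ξ}| < ε := by
    have h3 := (Metric.tendsto_nhds.1 t1) ε hε
    filter_upwards [h3] with n hn
    have h4 : ∫ η, (if restr S η = ξ then (1 : ℝ) else 0) ∂(μs n : Measure (Om d)) =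
        EE d x (P n) (ind (A n)) (fun η => if S ∩ η = ξ then 1 else 0) := by
      show ∫ η, (if restr S η = ξ then (1 : ℝ) else 0) ∂(mu' x (P n) (ind (A n))) = _
      rw [integral_mu' x hx0 _ _ (hfe n) _ (cont_ind S ξ)]
      simp only [restr_toOm]
      rfl
    rw [h4, Real.dist_eq] at hn
    exact hn
  obtain ⟨n, hn⟩ := t2.exists
  exact absurd hn (not_lt.2 (hlt n).le)

/-- **Mixing.** -/
theorem mixing (x : ℝ) (hx0 : 0 < x) (μ : Measure (Om d)) [IsProbabilityMeasure μ]
    (hμ : IsGibbs d x μ)
    (huniq : ∀ ν : Measure (Om d), IsProbabilityMeasure ν → IsGibbs d x ν → ν = μ)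
    (S ξ : Finset (Ed d)) (ε : ℝ) (hε : 0 < ε) :
    ∃ R₁ : ℕ, ∀ R : ℕ, R₁ ≤ R → ∀ F : Set (Om d), MeasurableSet[outS (EB d R)] F →
      |μ.real ({η | restr S η = ξ} ∩ F) - μ.real {η | restr S η = ξ} * μ.real F| ≤
        ε * μ.real F := by
  classical
  have : BorelSpace (Om d) := borel_Om
  obtain ⟨R₀, hR₀⟩ := unif x hx0 μ huniq S ξ ε hε
  obtain ⟨N, hN⟩ : ∃ N : ℕ, S ⊆ EB d N := by
    refine ⟨S.sup (fun e => nm e.1 + nm (e.1 + ev e.2)), fun e he => ?_⟩
    have := Finset.le_sup (f := fun e : Ed d => nm e.1 + nm (e.1 + ev e.2)) he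
    rw [mem_EB]
    have h2 : nm e.1 + nm (e.1 + ev e.2) ≤
      S.sup (fun e => nm e.1 + nm (e.1 + ev e.2)) := this
    constructor <;> omega
  refine ⟨max (R₀ + 1) N, fun R hR F hF => ?_⟩
  have hR1 : R₀ + 1 ≤ R := (le_max_left _ _).trans hR
  have hR2 : N ≤ R := (le_max_right _ _).trans hR
  have hFm : MeasurableSet F := by
    obtain ⟨F', hF', rfl⟩ := hF
    have hprc : Continuous (fun (η : Om d) (e : {e : Ed d // e ∉ EB d R}) => η e.1) :=
      continuous_pi fun e => continuous_apply e.1
    exact hprc.measurable hF'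
  have hVG : ∀ e ∈ EB d R, e.1 ∈ box d R ∧ e.1 + ev e.2 ∈ box d R := by
    intro e he
    rw [mem_EB] at he
    exact ⟨mem_box.2 he.1, mem_box.2 he.2⟩
  have hG : ∀ ζ ∈ (EB d R).powerset, (μ.restrict F) {η | restr (EB d R) η = ζ} =
      ∫⁻ η, ENNReal.ofReal (ell x (EB d R) (box d R) (outPar (EB d R) η) ζ) ∂(μ.restrict F) := by
    intro ζ hζ
    rw [Measure.restrict_apply (meas_restr _ _)]
    exact hμ (EB d R) (box d R) hVG ζ hζ F hF
  have hSR : S ⊆ EB d R := hN.trans (EB_mono hR2)
  have hres : ∀ η : Om d, S ∩ restr (EB d R) η = restr S η := by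
    intro η
    ext e
    simp only [restr, Finset.mem_inter, Finset.mem_filter]
    constructor
    · rintro ⟨h1, -, h2⟩
      exact ⟨h1, h2⟩
    · rintro ⟨h1, h2⟩
      exact ⟨h1, hSR h1, h2⟩
  have hsrc : ∀ U : Finset (Vt d), (∀ u ∈ U, nm u = R) → ZZ d x (EB d R) (ind U) ≠ 0 →
      |EE d x (EB d R) (ind U) (fun η => if S ∩ η = ξ then 1 else 0) -
        μ.real {η | restr S η = ξ}| ≤ ε := by
    intro U hU hZ
    refine hR₀ (EB d R) U (EB_mono ?_) ?_ ?_
    · omega
    · intro v hv
      rw [hU v hv]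
      omega
    · by_contra hno
      push Not at hno
      apply hZ
      have h1 : ZZ d x (EB d R) (ind U) = LL d x (EB d R) (ind U) (fun _ => 1) := rfl
      rw [h1, LL_eq']
      refine Finset.sum_eq_zero fun η hη => ?_
      unfold Ev' at hη
      rw [Finset.mem_filter, Finset.mem_powerset] at hη
      exact absurd hη.2 (hno η hη.1)
  set p := μ.real {η | restr S η = ξ} with hp
  have hFreal : (μ.restrict F).real Set.univ = μ.real F := by
    rw [Measure.real, Measure.restrict_apply_univ, Measure.real]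
  have hint : (μ.restrict F).real {η | restr S η = ξ} =
      μ.real ({η | restr S η = ξ} ∩ F) := by
    rw [Measure.real, Measure.restrict_apply (meas_restr _ _), Measure.real]
  have hup := trans' x hx0 (μ.restrict F) R hG (fun η => if S ∩ η = ξ then 1 else 0) (p + ε) (by
    intro U hU hZ
    have := abs_le.1 (hsrc U hU hZ)
    linarith [this.2])
  have hlo := trans' x hx0 (μ.restrict F) R hG (fun η => - (if S ∩ η = ξ then 1 else 0))
    (-(p - ε)) (by
    intro U hU hZ
    have h1 := abs_le.1 (hsrc U hU hZ)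
    have h2 : EE d x (EB d R) (ind U) (fun η => - (if S ∩ η = ξ then (1:ℝ) else 0)) =
        - EE d x (EB d R) (ind U) (fun η => if S ∩ η = ξ then 1 else 0) := by
      unfold EE MG.ex
      rw [← neg_div]
      congr 1
      unfold MG.L
      rw [← Finset.sum_neg_distrib]
      exact Finset.sum_congr rfl fun η _ => by ring
    rw [h2]
    linarith [h1.1])
  simp only [hres] at hup hlo
  rw [hFreal, integral_ind, hint] at hup
  rw [hFreal, integral_neg, integral_ind, hint] at hlo
  rw [abs_le]
  constructor <;> nlinarith [hup, hlo]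

/-- translation invariance -/
theorem invariant (x : ℝ) (hx0 : 0 < x) (μ : Measure (Om d)) [IsProbabilityMeasure μ]
    (hμ : IsGibbs d x μ)
    (huniq : ∀ ν : Measure (Om d), IsProbabilityMeasure ν → IsGibbs d x ν → ν = μ) (z : Vt d) :
    μ.map (shO z) = μ := by
  have hm : Measurable (shO z : Om d → Om d) :=
    measurable_pi_iff.2 fun e => measurable_pi_apply _
  have h1 : IsProbabilityMeasure (μ.map (shO z)) := Measure.isProbabilityMeasure_map hm.aemeasurable
  exact huniq _ h1 (Pool.Agent.TH159.J492.mapg d x hx0 μ z inferInstance hμ)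

end Pool.Agent.Y944.LO
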