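import Pool.Agent.TH981.LO.Main
import Pool.Agent.Y944.LO.Unif

/-!
# The subcritical loop O(1) model: all conclusions (MP_f0ab88_pr)
-/

set_option autoImplicit false
set_option linter.unusedSectionVars false

open Pool.Agent.TH981.LO
open scoped BigOperators symmDiff MeasureTheory ENNReal Topology
open MeasureTheory Filter

namespace Pool.Agent.Y944.LO

variable {d : ℕ}

/-- local expectations of the sourceless model depend exponentially little on far away edges -/
theorem loc (d : ℕ) (hd : 2 ≤ d) (x : ℝ) (hx0 : 0 < x) (hx : x < Real.tanh (betaC d)) :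
    S_LOC d x := by
  have hx1 : x < 1 := hx.trans (Real.tanh_lt_one _)
  have H1 : S_HOLLEY := TH304.J448.holley
  have H2 : S_FKG := TH304.J448.fkg
  have H3 : S_CMONO := Main.cmono H1
  have H5 : S_SL := TH635.J450.simonLieb H3
  have H6 : S_MARK := TH897.J451.mark
  have H10 : S_TRUNC := TH897.J454.trunc H6 H3
  have H11 : S_DER := TH429.J455.der
  have H12 : S_DERLB := TH429.J456.derlb H2
  have H13 : S_MAGEQ d := TH897.J457.mageq d hd
  have H14 : S_MWD d := TH897.J458.mwd d hd H6 H3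
  have H15 : S_MAGLB d := TH635.J459.maglb d hd H11 H12 H14
  have H16 : S_SHARP d := Main.sharp d hd H13 H15
  have HH : HS d x := H16 x hx0 hx
  have H17 : S_UD d x := TH429.J461.ud H5 H3 d x hx0 hx1 HH
  have H18 : S_DEC d x := TH429.J461.dec d x hx0 hx1 H17
  have H19 : S_CLOC d x := TH858.J462.cloc H10 H3 d x hx0 hx1 H18
  exact TH551.J463.loc d x hx0 hx1 H19

open Classical in
/-- The probability of the configuration `ξ` on the finite set `S` of edges, in the loop O(1) model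
with parameter `x` on the finite set `P` of edges with source set `A`. -/
noncomputable def lp (x : ℝ) (P : Finset (Ed d)) (A : Finset (Vt d)) (S ξ : Finset (Ed d)) : ℝ :=
  (∑ η ∈ P.powerset with ((lat d).bd η = ind A ∧ S ∩ η = ξ), x ^ η.card) /
    ∑ η ∈ P.powerset with (lat d).bd η = ind A, x ^ η.card

theorem lp_eq (x : ℝ) (P : Finset (Ed d)) (A : Finset (Vt d)) (S ξ : Finset (Ed d)) :
    lp x P A S ξ = EE d x P (ind A) (fun η => if S ∩ η = ξ then 1 else 0) := by
  classical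
  have h1 : EE d x P (ind A) (fun η => if S ∩ η = ξ then 1 else 0) =
      LL d x P (ind A) (fun η => if S ∩ η = ξ then 1 else 0) / LL d x P (ind A) (fun _ => 1) := rfl
  rw [h1, LL_eq', LL_eq']
  unfold lp Ev'
  congr 1
  · rw [← Finset.filter_filter, Finset.sum_filter]
    refine Finset.sum_congr ?_ fun η _ => ?_
    · congr
    · by_cases h : S ∩ η = ξ
      · simp [h]
      · simp [h]
  · refine Finset.sum_congr ?_ fun η _ => ?_
    · congr
    · rw [mul_one]

theorem ind_empty : (ind (∅ : Finset (Vt d)) : Vt d → ZMod 2) = 0 := by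
  funext v
  unfold ind
  simp

theorem exists_box (S : Finset (Ed d)) : ∃ N : ℕ, S ⊆ EB d N := by
  refine ⟨S.sup (fun e => nm e.1 + nm (e.1 + ev e.2)), fun e he => ?_⟩
  have := Finset.le_sup (f := fun e : Ed d => nm e.1 + nm (e.1 + ev e.2)) he
  rw [mem_EB]
  have h2 : nm e.1 + nm (e.1 + ev e.2) ≤
    S.sup (fun e => nm e.1 + nm (e.1 + ev e.2)) := this
  constructor <;> omega

/-- exponential rate for the sourceless model -/
theorem exprate (x : ℝ) (hx0 : 0 < x) (hloc : S_LOC d x) (μ : Measure (Om d))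
    [IsProbabilityMeasure μ]
    (huniq : ∀ ν : Measure (Om d), IsProbabilityMeasure ν → IsGibbs d x ν → ν = μ) :
    ∃ c : ℝ, 0 < c ∧ ∀ S : Finset (Ed d), ∃ C : ℝ, 0 ≤ C ∧ ∀ (P : Finset (Ed d)) (ρ : ℕ),
      EB d ρ ⊆ P → ∀ ξ ∈ S.powerset,
        |lp x P ∅ S ξ - μ.real {η | restr S η = ξ}| ≤ C * Real.exp (-c * ρ) := by
  classical
  obtain ⟨c, hc, hloc⟩ := hloc
  refine ⟨c, hc, fun S => ?_⟩
  obtain ⟨m, hm⟩ := exists_box S
  obtain ⟨C, hC, hb⟩ := hloc m
  refine ⟨C, hC, fun P ρ hP ξ _ => ?_⟩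
  have hlp : ∀ Q : Finset (Ed d), lp x Q ∅ S ξ =
      EE d x Q 0 (fun η => if S ∩ η = ξ then 1 else 0) := by
    intro Q
    rw [lp_eq, ind_empty]
  have hf : LocS (EB d m) (fun η : Finset (Ed d) => if S ∩ η = ξ then (1 : ℝ) else 0) := by
    intro η
    have : S ∩ (η ∩ EB d m) = S ∩ η := by
      ext e
      simp only [Finset.mem_inter]
      constructor
      · rintro ⟨h1, h2, -⟩
        exact ⟨h1, h2⟩
      · rintro ⟨h1, h2⟩
        exact ⟨h1, h2, hm h1⟩
    simp only [this]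
  have habs : ∀ η : Finset (Ed d), |(if S ∩ η = ξ then (1 : ℝ) else 0)| ≤ 1 := by
    intro η
    split_ifs <;> simp
  refine le_of_forall_pos_le_add fun ε hε => ?_
  obtain ⟨R₀, hR₀⟩ := unif x hx0 μ huniq S ξ ε hε
  have h1 := hR₀ (EB d (max R₀ ρ)) ∅ (EB_mono (le_max_left _ _)) (fun v hv => by simp at hv)
    ⟨∅, Finset.empty_subset _, by rw [ind_empty]; unfold MG.bd; simp⟩
  rw [ind_empty] at h1
  have h2 := hb P (EB d (max R₀ ρ)) ρ _ habs hf fun e he =>
    ⟨fun _ => EB_mono (le_max_right _ _) he, fun _ => hP he⟩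
  rw [hlp]
  have h3 := abs_sub_le (EE d x P 0 (fun η => if S ∩ η = ξ then 1 else 0))
    (EE d x (EB d (max R₀ ρ)) 0 (fun η => if S ∩ η = ξ then 1 else 0))
    (μ.real {η | restr S η = ξ})
  linarith

/-- uniform convergence, uniformly in the local configuration -/
theorem unifS (x : ℝ) (hx0 : 0 < x) (μ : Measure (Om d)) [IsProbabilityMeasure μ]
    (huniq : ∀ ν : Measure (Om d), IsProbabilityMeasure ν → IsGibbs d x ν → ν = μ)
    (S : Finset (Ed d)) (ε : ℝ) (hε : 0 < ε) :
    ∃ R₀ : ℕ, ∀ (P : Finset (Ed d)) (A : Finset (Vt d)), EB d R₀ ⊆ P → (∀ v ∈ A, R₀ < nm v) →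
      (∃ η, η ⊆ P ∧ (lat d).bd η = ind A) → ∀ ξ ∈ S.powerset,
        |lp x P A S ξ - μ.real {η | restr S η = ξ}| ≤ ε := by
  classical
  choose R hR using fun ξ => unif x hx0 μ huniq S ξ ε hε
  refine ⟨S.powerset.sup R, fun P A hP hA hfe ξ hξ => ?_⟩
  have hle : R ξ ≤ S.powerset.sup R := Finset.le_sup (f := R) hξ
  rw [lp_eq]
  have := hR ξ P A ((EB_mono hle).trans hP) (fun v hv => lt_of_le_of_lt hle (hA v hv)) hfe
  convert this using 6

/-- mixing, uniformly in the local configuration -/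
theorem mixingS (x : ℝ) (hx0 : 0 < x) (μ : Measure (Om d)) [IsProbabilityMeasure μ]
    (hμ : IsGibbs d x μ)
    (huniq : ∀ ν : Measure (Om d), IsProbabilityMeasure ν → IsGibbs d x ν → ν = μ)
    (S : Finset (Ed d)) (ε : ℝ) (hε : 0 < ε) :
    ∃ R₁ : ℕ, ∀ R : ℕ, R₁ ≤ R → ∀ F : Set (Om d), MeasurableSet[outS (EB d R)] F →
      ∀ ξ ∈ S.powerset,
      |μ.real ({η | restr S η = ξ} ∩ F) - μ.real {η | restr S η = ξ} * μ.real F| ≤
        ε * μ.real F := by
  classical
  choose R hR using fun ξ => mixing x hx0 μ hμ huniq S ξ ε hε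
  refine ⟨S.powerset.sup R, fun Q hQ F hF ξ hξ => ?_⟩
  exact hR ξ Q ((Finset.le_sup (f := R) hξ).trans hQ) F hF

end Pool.Agent.Y944.LO
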